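import Mathlib

set_option autoImplicit false

namespace Pool.Agent.Lib.MP_a53771_co

open Finset

/-- The number of image vectors of a 0/1 matrix over a finite field `k` is at most `|k|` to the
power of the rank of the same matrix over a larger field `K`. -/
lemma card_image_le {V k K : Type*} [Fintype V] [DecidableEq V] [Field k] [Fintype k]
    [DecidableEq k] [Field K] [Algebra k K] (L : V → Finset V) :
    (Finset.univ.image (fun (x : V → k) (u : V) => ∑ v ∈ L u, x v)).card ≤
      Fintype.card k ^ (Matrix.of (fun u v : V => if v ∈ L u then (1 : K) else 0)).rank := by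
  classical
  set A : Matrix V V K := Matrix.of (fun u v : V => if v ∈ L u then (1 : K) else 0) with hA
  rw [A.rank_eq_finrank_span_row]
  have H := Submodule.exists_fun_fin_finrank_span_eq K (Set.range A.row)
  generalize Module.finrank K (Submodule.span K (Set.range A.row)) = r at H ⊢
  obtain ⟨f, hf, hspan, -⟩ := H
  choose i hi using hf
  -- the projection to the selected coordinates
  let g : (V → k) → (Fin r → k) := fun x a => ∑ v ∈ L (i a), x v
  have key : ∀ x y : V → k, g x = g y →
      (fun u : V => ∑ v ∈ L u, x v) = (fun u : V => ∑ v ∈ L u, y v) := by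
    intro x y hxy
    funext u
    have hu : A.row u ∈ Submodule.span K (Set.range f) := by
      rw [hspan]
      exact Submodule.subset_span ⟨u, rfl⟩
    obtain ⟨c, hc⟩ := (Submodule.mem_span_range_iff_exists_fun K).1 hu
    have hrow : ∀ (z : V → k) (w : V),
        algebraMap k K (∑ v ∈ L w, z v) = ∑ v, A w v * algebraMap k K (z v) := by
      intro z w
      rw [map_sum]
      simp only [hA, Matrix.of_apply, ite_mul, one_mul, zero_mul]
      rw [Finset.sum_ite_mem, Finset.univ_inter]
    have hcomb : ∀ z : V → k, algebraMap k K (∑ v ∈ L u, z v) =
        ∑ a, c a * algebraMap k K (g z a) := by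
      intro z
      rw [hrow z u]
      have h1 : ∀ v, A u v = ∑ a, c a * f a v := by
        intro v
        have := congrFun hc v
        simp only [Finset.sum_apply, Pi.smul_apply, smul_eq_mul] at this
        exact this.symm
      calc ∑ v, A u v * algebraMap k K (z v)
          = ∑ v, ∑ a, c a * f a v * algebraMap k K (z v) := by
            refine Finset.sum_congr rfl fun v _ => ?_
            rw [h1 v, Finset.sum_mul]
        _ = ∑ a, c a * ∑ v, f a v * algebraMap k K (z v) := by
            rw [Finset.sum_comm]
            refine Finset.sum_congr rfl fun a _ => ?_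
            rw [Finset.mul_sum]
            refine Finset.sum_congr rfl fun v _ => ?_
            ring
        _ = ∑ a, c a * algebraMap k K (g z a) := by
            refine Finset.sum_congr rfl fun a _ => ?_
            have : algebraMap k K (g z a) = ∑ v, f a v * algebraMap k K (z v) := by
              rw [← hi a]
              exact hrow z (i a)
            rw [this]
    have : algebraMap k K (∑ v ∈ L u, x v) = algebraMap k K (∑ v ∈ L u, y v) := by
      rw [hcomb x, hcomb y, hxy]
    exact (algebraMap k K).injective this
  -- injection of the image into `Fin r → k`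
  have : (Finset.univ.image (fun (x : V → k) (u : V) => ∑ v ∈ L u, x v)).card ≤
      (Finset.univ : Finset (Fin r → k)).card := by
    let s : (V → k) → (V → k) := fun y =>
      if h : ∃ x : V → k, (fun u : V => ∑ v ∈ L u, x v) = y then h.choose else 0
    refine Finset.card_le_card_of_injOn (fun y => g (s y)) (fun _ _ => Finset.mem_univ _) ?_
    intro y hy y' hy' hyy
    simp only [Finset.coe_image, Finset.coe_univ, Set.image_univ, Set.mem_range] at hy hy'
    have e1 : (fun u : V => ∑ v ∈ L u, s y v) = y := by
      simp only [s, dif_pos hy]
      exact hy.choose_spec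
    have e2 : (fun u : V => ∑ v ∈ L u, s y' v) = y' := by
      simp only [s, dif_pos hy']
      exact hy'.choose_spec
    rw [← e1, ← e2]
    exact key _ _ hyy
  refine this.trans (le_of_eq ?_)
  rw [Finset.card_univ, Fintype.card_fun, Fintype.card_fin]

/-- Random shift: if the image is small then some shift `b` is hit in at least one coordinate
by every image vector. -/
lemma exists_shift {V k : Type*} [Fintype V] [DecidableEq V] [Fintype k] [DecidableEq k]
    (S : Finset (V → k))
    (hS : S.card * (Fintype.card k - 1) ^ Fintype.card V < Fintype.card k ^ Fintype.card V) :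
    ∃ b : V → k, ∀ y ∈ S, ∃ u, y u = b u := by
  classical
  by_contra hcon
  push Not at hcon
  have hsub : (Finset.univ : Finset (V → k)) ⊆
      S.biUnion (fun y => Fintype.piFinset (fun u => Finset.univ.erase (y u))) := by
    intro b _
    obtain ⟨y, hy, hyb⟩ := hcon b
    rw [Finset.mem_biUnion]
    refine ⟨y, hy, ?_⟩
    rw [Fintype.mem_piFinset]
    intro u
    exact Finset.mem_erase.2 ⟨fun h => hyb u h.symm, Finset.mem_univ _⟩
  have h1 := Finset.card_le_card hsub
  have h2 : (S.biUnion (fun y => Fintype.piFinset (fun u => Finset.univ.erase (y u)))).card ≤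
      S.card * (Fintype.card k - 1) ^ Fintype.card V := by
    refine Finset.card_biUnion_le_card_mul _ _ _ ?_
    intro y _
    rw [Fintype.card_piFinset]
    simp only [Finset.card_erase_of_mem (Finset.mem_univ _), Finset.card_univ,
      Finset.prod_const]
    exact le_rfl
  rw [Finset.card_univ, Fintype.card_fun] at h1
  omega

end Pool.Agent.Lib.MP_a53771_co
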