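import Mathlib

set_option autoImplicit false

namespace Pool.Agent.Lib.MP_a53771_co

variable {K : Type*} [Field K]

/-- `v` lies on the line through `u` with direction `(1, a, a^2, a^3)`, `a = u 0`. -/
def On (u v : Fin 4 → K) : Prop := ∀ j : Fin 4, v j - u j = (v 0 - u 0) * u 0 ^ (j : ℕ)

/-- The difference of the two points is in the direction `(1, t, t^2, t^3)` where `t` is the first
coordinate of one of them. -/
def Edge (u v : Fin 4 → K) : Prop :=
  ∃ t, (t = u 0 ∨ t = v 0) ∧ ∀ j : Fin 4, v j - u j = (v 0 - u 0) * t ^ (j : ℕ)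

lemma edge_of_on {u v : Fin 4 → K} (h : On u v ∨ On v u) : Edge u v := by
  rcases h with h | h
  · exact ⟨u 0, Or.inl rfl, h⟩
  · refine ⟨v 0, Or.inr rfl, fun j => ?_⟩
    linear_combination -(h j)

lemma Edge.ne {u v : Fin 4 → K} (h : Edge u v) (huv : u ≠ v) : u 0 ≠ v 0 := by
  obtain ⟨t, -, ht⟩ := h
  intro h0
  apply huv
  funext j
  have := ht j
  rw [h0, sub_self, zero_mul] at this
  exact (sub_eq_zero.1 this).symm

/-- First case: the second and the fourth vertex have different first coordinates. -/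
lemma caseA (v0 v1 v2 v3 : Fin 4 → K) (e0 : Edge v0 v1) (e1 : Edge v1 v2) (e2 : Edge v2 v3)
    (e3 : Edge v3 v0) (n0 : v0 0 ≠ v1 0) (n1 : v1 0 ≠ v2 0) (n2 : v2 0 ≠ v3 0)
    (n3 : v3 0 ≠ v0 0) (m0 : v0 ≠ v2) (m1 : v1 0 ≠ v3 0) : False := by
  obtain ⟨t0, h0, s0⟩ := e0
  obtain ⟨t1, h1, s1⟩ := e1
  obtain ⟨t2, h2, s2⟩ := e2
  obtain ⟨t3, h3, s3⟩ := e3
  have a1 := s0 1
  have a2 := s0 2
  have a3 := s0 3
  have b1 := s1 1
  have b2 := s1 2
  have b3 := s1 3
  have c1 := s2 1
  have c2 := s2 2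
  have c3 := s2 3
  have d1 := s3 1
  have d2 := s3 2
  have d3 := s3 3
  simp only [Fin.val_one, Fin.val_two, pow_one] at a1 a2 b1 b2 c1 c2 d1 d2
  have hv3 : ((3 : Fin 4) : ℕ) = 3 := rfl
  rw [hv3] at a3 b3 c3 d3
  -- if both edges at the second vertex have the same direction and `x = z` then `v0 = v2`
  have hclose : t0 = t1 → v0 0 = v2 0 → False := by
    intro ht hx
    apply m0
    funext j
    have e := s0 j
    have f := s1 j
    rw [ht] at e
    rw [← hx] at f
    linear_combination -e - f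
  generalize v0 0 = x at *
  generalize v1 0 = y at *
  generalize v2 0 = z at *
  generalize v3 0 = w at *
  -- cubic with roots at `x, z, w`
  have key : ∀ α β γ : K, (y - x) * ((t0 - α) * (t0 - β) * (t0 - γ)) +
      (z - y) * ((t1 - α) * (t1 - β) * (t1 - γ)) +
      (w - z) * ((t2 - α) * (t2 - β) * (t2 - γ)) +
      (x - w) * ((t3 - α) * (t3 - β) * (t3 - γ)) = 0 := by
    intro α β γ
    linear_combination -(a3 + b3 + c3 + d3) + (α + β + γ) * (a2 + b2 + c2 + d2)
      - (α * β + β * γ + γ * α) * (a1 + b1 + c1 + d1)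
  have yx : y - x ≠ 0 := sub_ne_zero.2 n0.symm
  have yz : y - z ≠ 0 := sub_ne_zero.2 n1
  have yw : y - w ≠ 0 := sub_ne_zero.2 m1
  have wz : w - z ≠ 0 := sub_ne_zero.2 n2.symm
  have wx : w - x ≠ 0 := sub_ne_zero.2 n3
  have wy : w - y ≠ 0 := sub_ne_zero.2 m1.symm
  have k1 := key x z w
  have k2 := key x z y
  have f2 : (w - z) * ((t2 - x) * (t2 - z) * (t2 - w)) = 0 := by
    rcases h2 with h | h <;> rw [h] <;> ring
  have f3 : (x - w) * ((t3 - x) * (t3 - z) * (t3 - w)) = 0 := by
    rcases h3 with h | h <;> rw [h] <;> ring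
  have g0 : (y - x) * ((t0 - x) * (t0 - z) * (t0 - y)) = 0 := by
    rcases h0 with h | h <;> rw [h] <;> ring
  have g1 : (z - y) * ((t1 - x) * (t1 - z) * (t1 - y)) = 0 := by
    rcases h1 with h | h <;> rw [h] <;> ring
  -- the second vertex
  have r1 : t0 = x ∧ t1 = z := by
    rcases h0 with h0 | h0 <;> rcases h1 with h1 | h1
    · exfalso
      subst h0 h1
      have : (z - t1) * ((t1 - t0) * (t1 - z) * (t1 - w)) = 0 := by
        linear_combination k1 - f2 - f3
      have hz : z - t1 ≠ 0 := sub_ne_zero.2 (sub_ne_zero.1 yz).symm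
      exact (mul_ne_zero hz (mul_ne_zero (mul_ne_zero yx yz) yw)) this
    · exact ⟨h0, h1⟩
    · exfalso
      have hxz : x = z := by
        have : (z - x) * ((y - x) * (y - z) * (y - w)) = 0 := by
          rw [h0, h1] at k1
          linear_combination k1 - f2 - f3
        have h' := (mul_eq_zero.1 this).resolve_right (mul_ne_zero (mul_ne_zero yx yz) yw)
        exact (sub_eq_zero.1 h').symm
      exact hclose (h0.trans h1.symm) hxz
    · exfalso
      have : (y - x) * ((y - x) * (y - z) * (y - w)) = 0 := by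
        rw [h0, h1] at k1
        linear_combination k1 - f2 - f3
      exact (mul_ne_zero yx (mul_ne_zero (mul_ne_zero yx yz) yw)) this
  -- the fourth vertex
  have r2 : t2 = z ∧ t3 = x := by
    rcases h2 with h2 | h2 <;> rcases h3 with h3 | h3
    · exfalso
      have : (x - w) * ((w - x) * (w - z) * (w - y)) = 0 := by
        rw [h2, h3] at k2
        linear_combination k2 - g0 - g1
      have hx : x - w ≠ 0 := sub_ne_zero.2 (sub_ne_zero.1 wx).symm
      exact (mul_ne_zero hx (mul_ne_zero (mul_ne_zero wx wz) wy)) this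
    · exact ⟨h2, h3⟩
    · exfalso
      have hxz : x = z := by
        have : (x - z) * ((w - x) * (w - z) * (w - y)) = 0 := by
          rw [h2, h3] at k2
          linear_combination k2 - g0 - g1
        have h' := (mul_eq_zero.1 this).resolve_right (mul_ne_zero (mul_ne_zero wx wz) wy)
        exact sub_eq_zero.1 h'
      exact hclose (r1.1.trans (hxz.trans r1.2.symm)) hxz
    · exfalso
      have : (w - z) * ((w - x) * (w - z) * (w - y)) = 0 := by
        rw [h2, h3] at k2
        linear_combination k2 - g0 - g1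
      exact (mul_ne_zero wz (mul_ne_zero (mul_ne_zero wx wz) wy)) this
  obtain ⟨r0, r1⟩ := r1
  obtain ⟨r2, r3⟩ := r2
  by_cases hxz : x = z
  · exact hclose (r0.trans (hxz.trans r1.symm)) hxz
  · have xz : z - x ≠ 0 := sub_ne_zero.2 (Ne.symm hxz)
    have k3 := key x x x
    rw [r0, r1, r2, r3] at k3
    have : (w - y) * (z - x) ^ 3 = 0 := by linear_combination k3
    exact (mul_ne_zero wy (pow_ne_zero 3 xz)) this

/-- There is no closed walk of length four through four different points. -/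
lemma no_c4 (h2 : (2 : K) ≠ 0) (v0 v1 v2 v3 : Fin 4 → K) (e0 : Edge v0 v1) (e1 : Edge v1 v2)
    (e2 : Edge v2 v3) (e3 : Edge v3 v0) (n0 : v0 ≠ v1) (n1 : v1 ≠ v2) (n2 : v2 ≠ v3)
    (n3 : v3 ≠ v0) (m0 : v0 ≠ v2) (m1 : v1 ≠ v3) : False := by
  have p0 := e0.ne n0
  have p1 := e1.ne n1
  have p2 := e2.ne n2
  have p3 := e3.ne n3
  by_cases hyw : v1 0 = v3 0
  swap
  · exact caseA v0 v1 v2 v3 e0 e1 e2 e3 p0 p1 p2 p3 m0 hyw
  by_cases hxz : v2 0 = v0 0
  swap
  · exact caseA v1 v2 v3 v0 e1 e2 e3 e0 p1 p2 p3 p0 m1 hxz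
  obtain ⟨t0, h0, s0⟩ := e0
  obtain ⟨t1, h1, s1⟩ := e1
  obtain ⟨t2, h2', s2⟩ := e2
  have c01 : t0 ≠ t1 := by
    intro ht
    apply m0
    funext j
    have e := s0 j
    have f := s1 j
    rw [ht] at e
    rw [hxz] at f
    linear_combination -e - f
  have c12 : t1 ≠ t2 := by
    intro ht
    apply m1
    funext j
    have e := s1 j
    have f := s2 j
    rw [ht] at e
    rw [← hyw] at f
    linear_combination -e - f
  obtain ⟨t3, h3, s3⟩ := e3
  have c23 : t2 ≠ t3 := by
    intro ht
    apply m0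
    funext j
    have e := s2 j
    have f := s3 j
    rw [ht] at e
    rw [hxz] at e
    linear_combination e + f
  have a1 := s0 1
  have b1 := s1 1
  have c1 := s2 1
  have d1 := s3 1
  simp only [Fin.val_one, pow_one] at a1 b1 c1 d1
  rw [← hyw] at c1 d1 h2' h3
  rw [hxz] at b1 c1 h1 h2'
  have hxy : v1 0 - v0 0 ≠ 0 := sub_ne_zero.2 (Ne.symm p0)
  have key : (v1 0 - v0 0) * (t0 - t1 + t2 - t3) = 0 := by
    linear_combination -a1 - b1 - c1 - d1
  have key' := (mul_eq_zero.1 key).resolve_left hxy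
  -- two values only
  have e02 : t0 = t2 := by
    rcases h0 with h0 | h0 <;> rcases h1 with h1 | h1 <;> rcases h2' with h2' | h2' <;>
      first
      | exact h0.trans h2'.symm
      | exact absurd (h0.trans h1.symm) c01
      | exact absurd (h1.trans h2'.symm) c12
  have e13 : t1 = t3 := by
    rcases h1 with h1 | h1 <;> rcases h2' with h2' | h2' <;> rcases h3 with h3 | h3 <;>
      first
      | exact h1.trans h3.symm
      | exact absurd (h1.trans h2'.symm) c12
      | exact absurd (h2'.trans h3.symm) c23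
  rw [← e02, ← e13] at key'
  have : (2 : K) * (t0 - t1) = 0 := by linear_combination key'
  exact (mul_ne_zero h2 (sub_ne_zero.2 c01)) this

end Pool.Agent.Lib.MP_a53771_co
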