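import Mathlib

set_option autoImplicit false

namespace Pool.Agent.Lib.MP_a53771_co

open Finset Polynomial

/-- A univariate polynomial of degree less than `q - 1` sums to zero over the field with `q`
elements. -/
lemma sum_eval_eq_zero {K : Type*} [Field K] [Fintype K] (P : K[X])
    (hP : P.natDegree < Fintype.card K - 1) : ∑ t : K, P.eval t = 0 := by
  classical
  simp_rw [Polynomial.eval_eq_sum_range]
  rw [Finset.sum_comm]
  refine Finset.sum_eq_zero fun i hi => ?_
  rw [← Finset.mul_sum, FiniteField.sum_pow_lt_card_sub_one, mul_zero]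
  rw [Finset.mem_range] at hi
  omega

/-- Monomials of small total degree sum to zero over each line. -/
lemma line_sum_small {K : Type*} [Field K] [Fintype K] (u d : Fin 4 → K) (w : Fin 4 → ℕ)
    (hw : ∑ j, w j < Fintype.card K - 1) :
    ∑ t : K, ∏ j, (u j + t * d j) ^ w j = 0 := by
  have h := sum_eval_eq_zero (K := K) (∏ j, (C (u j) + X * C (d j)) ^ w j) ?_
  · rw [← h]
    refine Finset.sum_congr rfl fun t _ => ?_
    rw [Polynomial.eval_prod]
    refine Finset.prod_congr rfl fun j _ => ?_
    rw [Polynomial.eval_pow, Polynomial.eval_add, Polynomial.eval_mul, Polynomial.eval_C,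
      Polynomial.eval_C, Polynomial.eval_X]
  · refine lt_of_le_of_lt (Polynomial.natDegree_prod_le _ _) (lt_of_le_of_lt ?_ hw)
    refine Finset.sum_le_sum fun j _ => ?_
    refine Polynomial.natDegree_pow_le.trans ?_
    have : (C (u j) + X * C (d j)).natDegree ≤ 1 := by
      refine (Polynomial.natDegree_add_le _ _).trans ?_
      rw [Polynomial.natDegree_C, mul_comm]
      refine max_le (by norm_num) ?_
      exact (Polynomial.natDegree_C_mul_le _ _).trans Polynomial.natDegree_X_le
    calc w j * (C (u j) + X * C (d j)).natDegree ≤ w j * 1 := Nat.mul_le_mul_left _ this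
      _ = w j := mul_one _

/-- Monomials all of whose four exponents have a zero digit at the same position in base `p`
sum to zero over each line. -/
lemma line_sum_digit {K : Type*} [Field K] [Fintype K] (p h : ℕ) [hp : Fact p.Prime] [CharP K p]
    (hp5 : 5 ≤ p) (hcard : Fintype.card K = p ^ h) (i0 : ℕ) (hi0 : i0 < h)
    (u d : Fin 4 → K) (w : Fin 4 → ℕ) (hw : ∀ j, w j < p ^ h)
    (hdig : ∀ j, w j / p ^ i0 % p = 0) :
    ∑ t : K, ∏ j, (u j + t * d j) ^ w j = 0 := by
  have hpp : 0 < p := hp.out.pos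
  obtain ⟨s, rfl⟩ : ∃ s, h = i0 + 1 + s := ⟨h - (i0 + 1), by omega⟩
  -- the new exponents
  let A : Fin 4 → ℕ := fun j => w j % p ^ i0
  let B : Fin 4 → ℕ := fun j => w j / p ^ (i0 + 1)
  have hdecomp : ∀ j, w j = A j + p ^ (i0 + 1) * B j := by
    intro j
    have h1 : w j = w j % p ^ i0 + p ^ i0 * (w j / p ^ i0) := (Nat.mod_add_div _ _).symm
    have h2 : w j / p ^ i0 = w j / p ^ i0 % p + p * (w j / p ^ i0 / p) :=
      (Nat.mod_add_div _ _).symm
    have h3 : w j / p ^ i0 / p = w j / p ^ (i0 + 1) := by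
      rw [Nat.div_div_eq_div_mul, pow_succ]
    rw [hdig j, zero_add, h3] at h2
    show w j = w j % p ^ i0 + p ^ (i0 + 1) * (w j / p ^ (i0 + 1))
    calc w j = w j % p ^ i0 + p ^ i0 * (w j / p ^ i0) := h1
      _ = w j % p ^ i0 + p ^ i0 * (p * (w j / p ^ (i0 + 1))) := by rw [h2]
      _ = _ := by rw [pow_succ]; ring
  have hA : ∀ j, A j < p ^ i0 := fun j => Nat.mod_lt _ (pow_pos hpp _)
  have hB : ∀ j, B j < p ^ s := by
    intro j
    show w j / p ^ (i0 + 1) < p ^ s
    rw [Nat.div_lt_iff_lt_mul (pow_pos hpp _), ← pow_add, add_comm s]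
    exact hw j
  have hfrob : ∀ y : K, y ^ (p ^ (i0 + 1 + s)) = y := by
    intro y
    have := FiniteField.pow_card y
    rwa [hcard] at this
  have hpow : ∀ (y : K) (j : Fin 4), (y ^ w j) ^ (p ^ s) = y ^ (A j * p ^ s + B j) := by
    intro y j
    have h3 : w j * p ^ s = A j * p ^ s + p ^ (i0 + 1 + s) * B j := by
      rw [hdecomp j, pow_add]; ring
    rw [← pow_mul, h3, pow_add y, pow_mul y (p ^ (i0 + 1 + s)), hfrob, ← pow_add]
  have hzero : (∑ t : K, ∏ j, (u j + t * d j) ^ w j) ^ (p ^ s) = 0 := by
    rw [sum_pow_char_pow]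
    have : ∀ t : K, (∏ j, (u j + t * d j) ^ w j) ^ (p ^ s) =
        ∏ j, (u j + t * d j) ^ (A j * p ^ s + B j) := by
      intro t
      rw [← Finset.prod_pow]
      exact Finset.prod_congr rfl fun j _ => hpow _ j
    simp_rw [this]
    apply line_sum_small
    have hle : ∀ j, A j * p ^ s + B j + 1 ≤ p ^ (i0 + s) := by
      intro j
      have h1 : A j + 1 ≤ p ^ i0 := hA j
      have h2 : B j + 1 ≤ p ^ s := hB j
      calc A j * p ^ s + B j + 1 ≤ A j * p ^ s + p ^ s := by omega
        _ = (A j + 1) * p ^ s := by ring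
        _ ≤ p ^ i0 * p ^ s := Nat.mul_le_mul_right _ h1
        _ = p ^ (i0 + s) := (pow_add _ _ _).symm
    have hsum : ∑ j, (A j * p ^ s + B j + 1) ≤ ∑ _j : Fin 4, p ^ (i0 + s) :=
      Finset.sum_le_sum fun j _ => hle j
    rw [Finset.sum_add_distrib] at hsum
    simp only [Finset.sum_const, Finset.card_univ, Fintype.card_fin, smul_eq_mul, mul_one] at hsum
    rw [hcard]
    have h5 : 5 * p ^ (i0 + s) ≤ p ^ (i0 + 1 + s) := by
      calc 5 * p ^ (i0 + s) ≤ p * p ^ (i0 + s) := Nat.mul_le_mul_right _ hp5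
        _ = p ^ (i0 + 1 + s) := by rw [← pow_succ']; congr 1; ring
    have h6 : 0 < p ^ (i0 + s) := pow_pos hpp _
    omega
  exact pow_eq_zero_iff (pow_pos hpp _).ne' |>.1 hzero

/-- Every function on `K^4` is a combination of reduced monomials. -/
lemma span_monomials {K : Type*} [Field K] [Fintype K] :
    Submodule.span K (Set.range (fun (w : Fin 4 → Fin (Fintype.card K)) (x : Fin 4 → K) =>
      ∏ j, x j ^ (w j : ℕ))) = ⊤ := by
  classical
  rw [eq_top_iff, ← MvPolynomial.map_restrict_dom_evalₗ (K := K) (σ := Fin 4)]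
  rintro f ⟨P, hP, rfl⟩
  rw [SetLike.mem_coe, MvPolynomial.mem_restrictDegree] at hP
  have hq : 0 < Fintype.card K := Fintype.card_pos
  rw [P.as_sum, map_sum]
  refine Submodule.sum_mem _ fun m hm => ?_
  have : (MvPolynomial.evalₗ K (Fin 4)) (MvPolynomial.monomial m (MvPolynomial.coeff m P)) =
      MvPolynomial.coeff m P • (fun x : Fin 4 → K => ∏ j, x j ^ (m j)) := by
    funext x
    rw [MvPolynomial.evalₗ_apply, MvPolynomial.eval_monomial]
    simp only [Pi.smul_apply, smul_eq_mul]
    congr 1
    rw [Finsupp.prod_fintype _ _ (fun i => pow_zero _)]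
  rw [this]
  refine Submodule.smul_mem _ _ (Submodule.subset_span ?_)
  refine ⟨fun j => ⟨m j, ?_⟩, rfl⟩
  have := hP m hm j
  omega

/-- Rank bound for one line through each point of `K^4`. -/
lemma rank_le {K : Type*} [Field K] [Fintype K] [DecidableEq K] (p h : ℕ)
    [hp : Fact p.Prime] [CharP K p]
    (hp5 : 5 ≤ p) (hcard : Fintype.card K = p ^ h)
    (d : (Fin 4 → K) → Fin 4 → K) (L : (Fin 4 → K) → Finset (Fin 4 → K))
    (hL : ∀ (u : Fin 4 → K) (x : (Fin 4 → K) → K),
      ∑ v ∈ L u, x v = ∑ t : K, x (fun j => u j + t * d u j)) :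
    (Matrix.of (fun u v : Fin 4 → K => if v ∈ L u then (1 : K) else 0)).rank
      ≤ (p ^ 4 - 1) ^ h := by
  classical
  set A : Matrix (Fin 4 → K) (Fin 4 → K) K :=
    Matrix.of (fun u v : Fin 4 → K => if v ∈ L u then (1 : K) else 0) with hA
  have hAx : ∀ x u, A.mulVecLin x u = ∑ t : K, x (fun j => u j + t * d u j) := by
    intro x u
    rw [← hL, Matrix.mulVecLin_apply]
    simp only [Matrix.mulVec, dotProduct, hA, Matrix.of_apply, ite_mul, one_mul, zero_mul]
    rw [Finset.sum_ite_mem, Finset.univ_inter]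
  let mono : (Fin 4 → Fin (Fintype.card K)) → (Fin 4 → K) → K :=
    fun w x => ∏ j, x j ^ (w j : ℕ)
  let dig : (Fin 4 → Fin (Fintype.card K)) → Fin h → Fin 4 → Fin p :=
    fun w i j => ⟨(w j : ℕ) / p ^ (i : ℕ) % p, Nat.mod_lt _ hp.out.pos⟩
  have : NeZero p := ⟨hp.out.ne_zero⟩
  let good : Finset (Fin 4 → Fin (Fintype.card K)) :=
    Finset.univ.filter (fun w => ∀ i, dig w i ≠ 0)
  have hrange : LinearMap.range A.mulVecLin ≤
      Submodule.span K ((fun w => A.mulVecLin (mono w)) '' (good : Set _)) := by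
    rw [LinearMap.range_eq_map, ← span_monomials (K := K), Submodule.map_span]
    rw [Submodule.span_le]
    rintro _ ⟨_, ⟨w, rfl⟩, rfl⟩
    by_cases hw : w ∈ good
    · exact Submodule.subset_span ⟨w, hw, rfl⟩
    · have : A.mulVecLin (mono w) = 0 := by
        simp only [good, Finset.mem_filter, Finset.mem_univ, true_and, not_forall, not_not] at hw
        obtain ⟨i, hi⟩ := hw
        funext u
        rw [hAx]
        refine line_sum_digit p h hp5 hcard i i.2 u (d u) (fun j => (w j : ℕ)) ?_ ?_
        · intro j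
          rw [← hcard]
          exact (w j).2
        · intro j
          have := congrArg Fin.val (congrFun hi j)
          simpa [dig] using this
      show A.mulVecLin (mono w) ∈ _
      rw [this]
      exact Submodule.zero_mem _
  have hfin : Module.finrank K (LinearMap.range A.mulVecLin) ≤ good.card := by
    refine (Submodule.finrank_mono hrange).trans ?_
    refine (finrank_span_le_card _).trans ?_
    rw [Set.toFinset_image]
    refine Finset.card_image_le.trans ?_
    simp
  refine hfin.trans ?_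
  -- counting the good exponents
  have hinj : Function.Injective dig := by
    intro w w' hww
    funext j
    apply Fin.ext
    have hcast : ∀ (z : Fin (Fintype.card K)), (z : ℕ) < p ^ h := fun z => hcard ▸ z.2
    have e : (⟨(w j : ℕ), hcast _⟩ : Fin (p ^ h)) = ⟨(w' j : ℕ), hcast _⟩ := by
      apply finFunctionFinEquiv.symm.injective
      funext i
      apply Fin.ext
      have := congrArg Fin.val (congrFun (congrFun hww i) j)
      simpa [dig, finFunctionFinEquiv] using this
    exact Fin.mk.inj_iff.1 e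
  calc good.card ≤ (Fintype.piFinset (fun _ : Fin h =>
        (Finset.univ : Finset (Fin 4 → Fin p)).erase 0)).card := by
        refine Finset.card_le_card_of_injOn dig ?_ (hinj.injOn)
        intro w hw
        rw [Finset.mem_coe, Fintype.mem_piFinset]
        intro i
        refine Finset.mem_erase.2 ⟨?_, Finset.mem_univ _⟩
        exact (Finset.mem_filter.1 hw).2 i
    _ = (p ^ 4 - 1) ^ h := by
        rw [Fintype.card_piFinset]
        simp only [Finset.card_erase_of_mem (Finset.mem_univ _), Finset.card_univ,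
          Finset.prod_const, Fintype.card_fun, Fintype.card_fin]

end Pool.Agent.Lib.MP_a53771_co
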