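import Mathlib
import Pool.Agent.Lib.MP_a53771_co.Count
import Pool.Agent.Lib.MP_a53771_co.Rank
import Pool.Agent.Lib.MP_a53771_co.NoC4

set_option autoImplicit false

namespace Pool.Agent.Lib.MP_a53771_co

open Finset

/-- There is `m` with `p (p-1)^m < p^m`. -/
lemma exists_m (p : ℕ) (hp : 2 ≤ p) : ∃ m : ℕ, p * (p - 1) ^ m < p ^ m := by
  have hp0 : (0 : ℝ) < p := by
    have : (2 : ℝ) ≤ p := by exact_mod_cast hp
    linarith
  have h1 : ((p : ℝ) - 1) / p < 1 := by
    rw [div_lt_one hp0]; linarith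
  have hp1 : (0 : ℝ) ≤ (p : ℝ) - 1 := by
    have : (2 : ℝ) ≤ p := by exact_mod_cast hp
    linarith
  obtain ⟨m, hm⟩ := exists_pow_lt_of_lt_one (show (0 : ℝ) < 1 / p by positivity) h1
  refine ⟨m, ?_⟩
  rw [div_pow, div_lt_div_iff₀ (by positivity) hp0, one_mul] at hm
  have : ((p * (p - 1) ^ m : ℕ) : ℝ) < ((p ^ m : ℕ) : ℝ) := by
    push_cast [Nat.cast_sub (show 1 ≤ p by omega)]
    linarith [mul_comm (((p : ℝ) - 1) ^ m) (p : ℝ)]
  exact_mod_cast this

lemma bern (a n : ℕ) : a ^ (n + 1) + (n + 1) * a ^ n ≤ (a + 1) ^ (n + 1) := by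
  induction n with
  | zero => simp
  | succ n ih =>
    calc a ^ (n + 1 + 1) + (n + 1 + 1) * a ^ (n + 1)
        ≤ (a + 1) * (a ^ (n + 1) + (n + 1) * a ^ n) := by
          have : (a + 1) * (a ^ (n + 1) + (n + 1) * a ^ n) =
            a ^ (n + 1 + 1) + (n + 1 + 1) * a ^ (n + 1) + (n + 1) * a ^ n := by ring
          rw [this]
          exact Nat.le_add_right _ _
      _ ≤ (a + 1) * (a + 1) ^ (n + 1) := Nat.mul_le_mul_left _ ih
      _ = (a + 1) ^ (n + 1 + 1) := by ring

/-- There is `h ≥ 1` with `m (N - 1)^h ≤ N^h`. -/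
lemma exists_h (N m : ℕ) (hN : 1 ≤ N) : ∃ h : ℕ, 1 ≤ h ∧ m * (N - 1) ^ h ≤ N ^ h := by
  obtain ⟨a, rfl⟩ : ∃ a, N = a + 1 := ⟨N - 1, by omega⟩
  rw [Nat.add_sub_cancel]
  refine ⟨m * a + 1, by omega, ?_⟩
  calc m * a ^ (m * a + 1) = (m * a) * a ^ (m * a) := by ring
    _ ≤ (m * a + 1) * a ^ (m * a) := Nat.mul_le_mul_right _ (Nat.le_succ _)
    _ ≤ a ^ (m * a + 1) + (m * a + 1) * a ^ (m * a) := Nat.le_add_left _ _
    _ ≤ _ := bern _ _

/-- The numerical inequality behind the random shift. -/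
lemma pow_ineq (p m R n : ℕ) (hp : 2 ≤ p) (hR : 1 ≤ R) (hm : p * (p - 1) ^ m < p ^ m)
    (hn : m * R ≤ n) : p ^ R * (p - 1) ^ n < p ^ n := by
  obtain ⟨s, rfl⟩ : ∃ s, n = m * R + s := ⟨n - m * R, by omega⟩
  have h1 : p ^ R * (p - 1) ^ (m * R) < p ^ (m * R) := by
    rw [pow_mul, pow_mul, ← mul_pow]
    exact Nat.pow_lt_pow_left hm (by omega)
  have h2 : (p - 1) ^ s ≤ p ^ s := Nat.pow_le_pow_left (by omega) _
  have h3 : 0 < (p - 1) ^ s := pow_pos (by omega) _
  rw [pow_add, pow_add, ← mul_assoc]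
  exact lt_of_lt_of_le (Nat.mul_lt_mul_of_pos_right h1 h3) (Nat.mul_le_mul_left _ h2)

/-- The graph: each point of `K^4` is joined to the points of a line through it. -/
def lineGraph (K : Type*) [Field K] : SimpleGraph (Fin 4 → K) where
  Adj u v := u ≠ v ∧ (On u v ∨ On v u)
  symm := ⟨fun _ _ h => ⟨h.1.symm, h.2.symm⟩⟩
  loopless := ⟨fun _ h => h.1 rfl⟩

/-- For every prime `p ≥ 5` there are a finite type `V`, a graph on `V` without a four-cycle and a
winning strategy for hat colours in `ZMod p`. -/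
lemma main (p : ℕ) (hp : p.Prime) (hp5 : 5 ≤ p) :
    ∃ (V : Type) (_ : Fintype V) (G : SimpleGraph V),
      (∀ v0 v1 v2 v3 : V, G.Adj v0 v1 → G.Adj v1 v2 → G.Adj v2 v3 → G.Adj v3 v0 →
        v0 ≠ v2 → v1 ≠ v3 → False) ∧
      ∃ f : V → (V → ZMod p) → ZMod p,
        (∀ v : V, ∀ c c' : V → ZMod p, (∀ u : V, G.Adj v u → c u = c' u) → f v c = f v c') ∧
        ∀ c : V → ZMod p, ∃ v : V, f v c = c v := by
  classical
  have : Fact p.Prime := ⟨hp⟩
  obtain ⟨m, hm⟩ := exists_m p hp.two_le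
  obtain ⟨h, hh, hN⟩ := exists_h (p ^ 4) m (Nat.one_le_pow _ _ hp.pos)
  let K := GaloisField p h
  have : Fintype K := Fintype.ofFinite K
  have hcard : Fintype.card K = p ^ h := by
    rw [← Nat.card_eq_fintype_card]
    exact GaloisField.card p h (by omega)
  let L : (Fin 4 → K) → Finset (Fin 4 → K) := fun u => Finset.univ.filter (fun v => On u v)
  have hLself : ∀ u, u ∈ L u := by
    intro u
    simp only [L, Finset.mem_filter, Finset.mem_univ, true_and]
    intro j
    simp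
  have hL : ∀ (u : Fin 4 → K) (x : (Fin 4 → K) → K),
      ∑ v ∈ L u, x v = ∑ t : K, x (fun j => u j + t * (fun u' (j' : Fin 4) =>
        (u' 0 : K) ^ (j' : ℕ)) u j) := by
    intro u x
    refine Finset.sum_nbij' (fun v => v 0 - u 0) (fun t => fun j => u j + t * u 0 ^ (j : ℕ))
      ?_ ?_ ?_ ?_ ?_
    · intro v _
      exact Finset.mem_univ _
    · intro t _
      simp only [L, Finset.mem_filter, Finset.mem_univ, true_and]
      intro j
      simp
    · intro v hv
      simp only [L, Finset.mem_filter, Finset.mem_univ, true_and] at hv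
      funext j
      have := hv j
      show u j + (v 0 - u 0) * u 0 ^ (j : ℕ) = v j
      rw [← this]
      ring
    · intro t _
      simp
    · intro v hv
      simp only [L, Finset.mem_filter, Finset.mem_univ, true_and] at hv
      congr 1
      funext j
      have := hv j
      show v j = u j + (v 0 - u 0) * u 0 ^ (j : ℕ)
      rw [← this]
      ring
  have hrank := rank_le (K := K) p h hp5 hcard _ L hL
  have himg := card_image_le (k := ZMod p) (K := K) L
  rw [ZMod.card] at himg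
  have hVcard : Fintype.card (Fin 4 → K) = (p ^ 4) ^ h := by
    rw [Fintype.card_fun, Fintype.card_fin, hcard, ← pow_mul, ← pow_mul, mul_comm]
  have hS : (Finset.univ.image (fun (x : (Fin 4 → K) → ZMod p) (u : Fin 4 → K) =>
      ∑ v ∈ L u, x v)).card * (Fintype.card (ZMod p) - 1) ^ Fintype.card (Fin 4 → K) <
      Fintype.card (ZMod p) ^ Fintype.card (Fin 4 → K) := by
    rw [ZMod.card, hVcard]
    have h2p := hp.two_le
    have hR : 1 ≤ (p ^ 4 - 1) ^ h := by
      refine Nat.one_le_pow _ _ ?_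
      have : 2 ^ 4 ≤ p ^ 4 := Nat.pow_le_pow_left h2p 4
      omega
    refine lt_of_le_of_lt ?_ (pow_ineq p m ((p ^ 4 - 1) ^ h) ((p ^ 4) ^ h) h2p hR hm hN)
    refine Nat.mul_le_mul_right _ (himg.trans ?_)
    exact Nat.pow_le_pow_right hp.pos hrank
  obtain ⟨b, hb⟩ := exists_shift _ hS
  refine ⟨Fin 4 → K, inferInstance, lineGraph K, ?_, fun u c => b u - ∑ v ∈ (L u).erase u, c v,
    ?_, ?_⟩
  · intro v0 v1 v2 v3 e0 e1 e2 e3 m0 m1
    have h2 : (2 : K) ≠ 0 := by
      intro h20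
      have : ((2 : ℕ) : K) = 0 := by exact_mod_cast h20
      rw [CharP.cast_eq_zero_iff K p] at this
      have := Nat.le_of_dvd (by norm_num) this
      omega
    exact no_c4 h2 v0 v1 v2 v3 (edge_of_on e0.2) (edge_of_on e1.2) (edge_of_on e2.2)
      (edge_of_on e3.2) e0.1 e1.1 e2.1 e3.1 m0 m1
  · intro v c c' hc
    show b v - _ = b v - _
    congr 1
    refine Finset.sum_congr rfl fun u hu => ?_
    rw [Finset.mem_erase] at hu
    refine hc u ⟨hu.1.symm, Or.inl ?_⟩
    have := hu.2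
    simpa only [L, Finset.mem_filter, Finset.mem_univ, true_and] using this
  · intro c
    obtain ⟨u, hu⟩ := hb _ (Finset.mem_image_of_mem _ (Finset.mem_univ c))
    refine ⟨u, ?_⟩
    have h1 := Finset.add_sum_erase (L u) c (hLself u)
    show b u - ∑ v ∈ (L u).erase u, c v = c u
    rw [← hu]
    show ∑ v ∈ L u, c v - ∑ v ∈ (L u).erase u, c v = c u
    rw [← h1]
    ring

end Pool.Agent.Lib.MP_a53771_co
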